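import Pool.Agent.K1H81.DP.Fin

/-!
# The Tauberian Tate conjecture for almost all varieties built from double planes, for all lengths of the
sums at the same time

Let `X_i : y² = ∑ c_{i,μ} x^μ` be the double plane ramified along a plane curve of even degree `d_i ≥ 4`,
`i = 1, …, r`, with integral coefficients `c_{i,μ}` (`d_i = 6`: the K3 surfaces of degree two).  We study
the question for the varieties `V` over `ℚ` for which `H²(V)` is a sum of `k` copies of `ℚ_ℓ(-1)` and of
`a_i` copies of the primitive part of `H²(X_i)` (the part on which the covering involution acts as `-1`);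
for instance `V = ∏ X_i^{e_i}` (`k = ∑ e_i`, `a_i = e_i`; `H¹(X_i) = 0`), its blowups at points or along
products of the `X_i`, the projective bundles over `V`, the Hilbert schemes of points of the `X_i`.  The
multiplicities are given by `V : Shape r` (`Pool.Agent.K1H81.DP.Defs`).  By the formula of Lefschetz the
trace `b_p(V)` of Frobenius on `H²(V)` at the primes of good reduction is `traceH2 V c p`.

The theorem says: apart from a set of proportion `O(A⁻²)` of the tuples of double planes with
coefficients at most `H`, the sum of `b_p(V) log(p) / p` over the good primes `p < T` is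
`k ∑_{p < T} log p` with an error of at most `A · size(V) · T^{1/2} (log T)³`, for all `V` built from the
double planes and for all `T ≤ (H/8)^{1/4}` at the same time; and the same with arbitrary weights
`|w_p| ≤ 1`.  Consequently, for `η > 0` there is a `T₀` such that for all `H`, apart from a proportion
`η` of the tuples, the average of the question is within `η · size(V)` of `k` for all `V` and all `T`
with `T₀ ≤ T ≤ (H/8)^{1/4}`.  (For most `c` the primitive part of `H²(X_i)` contains no algebraic class
which is rational over `ℚ`, and `k` is the rank of `NS(V/ℚ)`; this is not proved here.)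

Used from the starting library: the maximal inequality for functions of the reduction of an integral
vector (`Pool.Agent.Y722.ST.effective_weights`, `abel_log`) and the prime number theorem
(`Pool.Agent.Cov.PNT`).  The local theory (`K1H81.DC`: the moments of the sums of the quadratic character
of the values of a random form) is that of `Results/MP_32ceeb_nt/RandomDoubleCovers`, the global argument
that of `RandomVarieties` (hypersurfaces).
-/

set_option autoImplicit false

namespace Pool.Agent.Results.MP_4589ac_nt.RandomDoublePlanes

open Pool.Agent.K1H81.DP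
open Pool.Agent.K1H81.HW (thetaSum)
open Pool.Agent.Y722.HS (Mon)

/-- **The Tauberian Tate conjecture for almost all varieties built from double planes.** -/
theorem result (r : ℕ) (d : Fin r → ℕ) (he : ∀ i, Even (d i)) (hd : ∀ i, 3 ≤ d i) :
    (∃ C : ℝ, 0 < C ∧ ∀ w : ℕ → ℝ, (∀ p, |w p| ≤ 1) → ∀ (H : ℕ) (A : ℝ), 0 < A →
      ({c : (Σ i, Mon 2 (d i)) → ℤ | (∀ μ, |c μ| ≤ H) ∧ ∃ (V : Shape r) (T : ℕ), 2 ≤ T ∧
        8 * T ^ 4 ≤ H ∧ A * size V * (√T * Real.log T ^ 3) <
          |tateSum V c w T - V.k * thetaSum w T|}.ncard : ℝ) ≤
        C / A ^ 2 * (2 * H + 1 : ℝ) ^ Fintype.card (Σ i, Mon 2 (d i))) ∧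
    (∀ η : ℝ, 0 < η → ∃ T₀ : ℕ, ∀ H : ℕ,
      ({c : (Σ i, Mon 2 (d i)) → ℤ | (∀ μ, |c μ| ≤ H) ∧ ∃ (V : Shape r) (T : ℕ), T₀ ≤ T ∧
        8 * T ^ 4 ≤ H ∧ η * size V < |tateSum V c (fun _ => 1) T / T - V.k|}.ncard : ℝ) ≤
        η * (2 * H + 1 : ℝ) ^ Fintype.card (Σ i, Mon 2 (d i))) :=
  ⟨lln he hd, fun η hη => lln_limit he hd η hη⟩

end Pool.Agent.Results.MP_4589ac_nt.RandomDoublePlanes
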