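import Pool.Agent.K1H81.HW.Fin2

/-!
# The Tauberian Tate conjecture for almost all varieties built from hypersurfaces, for all lengths of the
sums at the same time

Let `X_i ⊂ ℙ^{n_i + 1}` be the hypersurface `∑ c_{i,μ} x^μ = 0` of degree `d_i ≥ 3` and dimension
`n_i ≥ 1`, `i = 1, …, r`, with integral coefficients `c_{i,μ}`.  We study the question for the varieties
`V` over `ℚ` for which `H²(V)` is a sum of copies of `ℚ_ℓ(-1)`, of the primitive parts of `H²(X_i)` for
the surfaces, and of `Λ²H¹(X_i)`, `Sym²H¹(X_i)`, `H¹(X_i) ⊗ H¹(X_j)` for the curves.  The multiplicities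
are given by `V : Shape r` (`Pool.Agent.K1H81.HW.Defs`).

Examples.
* `V = ∏ X_i^{e_i} × ∏ J(X_i)^{g_i}`, with `J(X_i)` the Jacobian of the curve `X_i` (`g_i = 0` if
  `n_i ≥ 2`).  Put `m_i = e_i + g_i`.  By the Künneth formula `k = ∑ e_i`, `a_i = e_i`,
  `l_i = g_i + m_i (m_i - 1) / 2`, `s_i = m_i (m_i - 1) / 2` and `t_{i,j} = m_i m_j`.  The predicted rank
  is `ρ = ∑ e_i + ∑_{n_i = 1} (g_i + m_i (m_i - 1) / 2)`.  For a random curve of genus at least 1 we have
  `End J(X_i) = ℤ`, there are no homomorphisms between the Jacobians of `X_i` and `X_j`, and `ρ` is the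
  rank of the Néron–Severi group.
* The blowups of `V` at points or along products of the `X_i`, the projective bundles over `V`, the
  symmetric products of the curves, the Hilbert schemes of points of the surfaces, ….

By the formula of Lefschetz the trace `b_p(V)` of Frobenius on `H²(V)` at the primes of good reduction is
`traceH2 V c p`: it is a polynomial in the numbers of points of the curves over the fields with `p` and
with `p²` elements, and of the surfaces over the fields with `p` elements.

The theorem says: apart from a set of proportion `O(A⁻²)` of the tuples of hypersurfaces with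
coefficients at most `H`, the sum of `b_p(V) log(p) / p` over the good primes `p < T` is
`ρ ∑_{p < T} log p` with an error of at most `A · size(V) · T^{1/2} (log T)³`, for all `V` built from the
hypersurfaces and for all `T ≤ (H/8)^{1/4}` at the same time; and the same with arbitrary weights
`|w_p| ≤ 1`.  (With the weights `w_p = #{𝔭 ∣ p of degree one} / [K : ℚ]` this is the sum of the question
for `V` over the number field `K`, restricted to the primes of degree one, which alone contribute to the
limit.)  Consequently, for `η > 0` there is a `T₀` such that for all `H`, apart from a proportion `η` of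
the tuples, the average of the question is within `η · size(V)` of `ρ` for all `V` and all `T` with
`T₀ ≤ T ≤ (H/8)^{1/4}`.

Used from the starting library: the maximal inequality for functions of the reduction of an integral
vector (`Pool.Agent.Y722.ST.effective_weights`, `abel_log`; used there for the averages of Nagao) and the
prime number theorem (`Pool.Agent.Cov.PNT`).  The library has (`Pool.Agent.X280.HG.Tate`, `HG.LogW`) the
normal law at one length `T` for the products of *different* hypersurfaces, whose `H²` involves only the
numbers of points over the prime fields, for sums over all primes.  New here: the moments of the numbers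
of points over the fields with `p²` elements for hypersurfaces of any dimension (`K1H81.HV`, `HW.One`,
`HW.Inst`, `HW.Loc`), which give the Jacobians, the powers of the curves and the classes of
`Λ²H¹` in the rank; the powers of the surfaces; the primes of good reduction; the uniformity in `V` and
in `T` (`HW.Dat`, `HW.Fin2`).
-/

set_option autoImplicit false

namespace Pool.Agent.Results.MP_4589ac_nt.RandomVarieties

open Pool.Agent.K1H81.HW
open Pool.Agent.Y722.HS (Mon)

/-- **The Tauberian Tate conjecture for almost all varieties built from hypersurfaces.** -/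
theorem result (r : ℕ) (n d : Fin r → ℕ) (hn : ∀ i, 1 ≤ n i) (hd : ∀ i, 3 ≤ d i) :
    (∃ C : ℝ, 0 < C ∧ ∀ w : ℕ → ℝ, (∀ p, |w p| ≤ 1) → ∀ (H : ℕ) (A : ℝ), 0 < A →
      ({c : (Σ i, Mon (n i + 1) (d i)) → ℤ | (∀ μ, |c μ| ≤ H) ∧ ∃ (V : Shape r) (T : ℕ), 2 ≤ T ∧
        8 * T ^ 4 ≤ H ∧ A * size V * (√T * Real.log T ^ 3) <
          |tateSum V c w T - rank n V * thetaSum w T|}.ncard : ℝ) ≤
        C / A ^ 2 * (2 * H + 1 : ℝ) ^ Fintype.card (Σ i, Mon (n i + 1) (d i))) ∧
    (∀ η : ℝ, 0 < η → ∃ T₀ : ℕ, ∀ H : ℕ,
      ({c : (Σ i, Mon (n i + 1) (d i)) → ℤ | (∀ μ, |c μ| ≤ H) ∧ ∃ (V : Shape r) (T : ℕ), T₀ ≤ T ∧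
        8 * T ^ 4 ≤ H ∧ η * size V < |tateSum V c (fun _ => 1) T / T - rank n V|}.ncard : ℝ) ≤
        η * (2 * H + 1 : ℝ) ^ Fintype.card (Σ i, Mon (n i + 1) (d i))) :=
  ⟨lln hn hd, fun η hη => lln_limit hn hd η hη⟩

end Pool.Agent.Results.MP_4589ac_nt.RandomVarieties
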